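import Pool.Agent.MP_542436_nt.H1.FewC1

/-!
Few primitive vectors have a value which is a small multiple of a square or a cube.
-/

namespace Pool.Agent.MP_542436_nt.H1

open Polynomial Pool.Agent.MP_542436_nt.H5

/-- The value at `t` is `e z ^ k` with `z > 1` having only huge prime factors. -/
def Gd (g : ℤ[X]) (r B : ℕ) (η : ℝ) (e : ℤ) (k : ℕ) (t : ℤ × ℤ) : Prop :=
  ∃ z : ℕ, hv g r t = e * (z : ℤ) ^ k ∧ 1 < z ∧ ∀ p : ℕ, p.Prime → p ∣ z → (B : ℝ) ^ (2 - η) < p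

/-- The conclusion of the determinant method for one `B`. -/
def LineAt (r c B : ℕ) (γ : ℝ) : Prop :=
  ∀ (h : ℤ[X]) (e : ℤ) (k L : ℕ), (k = 2 ∨ k = 3) → h.natDegree ≤ r → 1 ≤ h.natDegree →
    (h.map (Int.castRingHom ℚ)).Separable → e ≠ 0 → |e| ≤ (B : ℤ) ^ c →
    (B : ℝ) ^ γ ≤ L → L ≤ 2 * B →
    ∀ S : Finset ℤ, (∀ y ∈ S, |y| ≤ (L : ℤ) ∧ ∃ z : ℕ, h.eval y = e * (z : ℤ) ^ k ∧
        z ≤ B ^ c ∧ ∀ p : ℕ, p.Prime → p ∣ z → B < p) →
      (S.card : ℝ) ≤ (L : ℝ) ^ ((2 : ℝ) / 3)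

/-- The standing assumptions. -/
structure Ctx (r c R B : ℕ) (η : ℝ) (g : ℤ[X]) (D : ℤ) : Prop where
  adm : Adm r c R B g D
  hr : 1 ≤ r
  hR : 1 ≤ R
  hB1 : r + 1 ≤ B
  hB2 : 2 * R < B
  h0 : 0 < η
  h1 : η ≤ 1 / 4
  line : LineAt r (c + r + 1) B (η / 2)

lemma mem_box {B : ℕ} {t : ℤ × ℤ} (h : t ∈ box B) :
    |t.1| ≤ B ∧ |t.2| ≤ B ∧ Int.gcd t.1 t.2 = 1 := by
  simp only [box, Finset.mem_filter, Finset.mem_product, Finset.mem_Icc] at h
  exact ⟨abs_le.2 h.1.1, abs_le.2 h.1.2, h.2⟩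

variable {r c R B : ℕ} {η : ℝ} {g : ℤ[X]} {D : ℤ}

lemma Ctx.one_le (H : Ctx r c R B η g D) : (1 : ℝ) ≤ B := by
  have := H.hB1
  exact_mod_cast (by omega : 1 ≤ B)

lemma Ctx.lc (H : Ctx r c R B η g D) : g.coeff r ≠ 0 := fun h =>
  H.adm.D_ne (zero_dvd_iff.1 (h ▸ H.adm.lc_dvd))

lemma Ctx.fibre (H : Ctx r c R B η g D) {e : ℤ} {k : ℕ} (hk : k = 2 ∨ k = 3) (he0 : e ≠ 0)
    (he : |(e : ℝ)| ≤ (B : ℝ) ^ (2 - η)) {m : ℕ} {x : ℤ} {v : ℤ × ℤ} {s : ℕ} (hs : 1 ≤ s)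
    (hsB : (s : ℝ) ≤ (B : ℝ) ^ (1 - η / 2)) (hv1 : max v.1.natAbs v.2.natAbs = s)
    (hv2 : ∀ u : ℤ × ℤ, (m : ℤ) ∣ u.1 - x * u.2 → dt v u = 0 →
      ∃ j : ℤ, u.1 = j * v.1 ∧ u.2 = j * v.2) {κ : ℤ} (hκ : κ ≠ 0) (F : Finset (ℤ × ℤ))
    (hF : ∀ t ∈ F, t ∈ box B ∧ (m : ℤ) ∣ t.1 - x * t.2 ∧ Gd g r B η e k t ∧ dt v t = κ) :
    (F.card : ℝ) ≤ ((2 * B / s : ℕ) : ℝ) ^ ((2 : ℝ) / 3) := by
  classical
  rcases F.eq_empty_or_nonempty with rfl | ⟨a, ha⟩
  · simp only [Finset.card_empty, Nat.cast_zero]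
    positivity
  have hB := H.one_le
  have hk2 : 2 ≤ k := by omega
  have hBr := H.hr
  have hsB' : s ≤ B := by
    have := Real.rpow_le_rpow_of_exponent_le hB (show 1 - η / 2 ≤ 1 by linarith [H.h0])
    rw [Real.rpow_one] at this
    exact_mod_cast hsB.trans this
  have hz : ∀ (t : ℤ × ℤ) (z : ℕ), hv g r t = e * (z : ℤ) ^ k → 1 < z →
      z ^ 2 ≤ (hv g r t).natAbs := by
    intro t z h1 h2
    rw [h1, Int.natAbs_mul, Int.natAbs_pow, Int.natAbs_natCast]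
    exact (Nat.pow_le_pow_right h2.le hk2).trans
      (Nat.le_mul_of_pos_left _ (Int.natAbs_pos.2 he0))
  obtain ⟨hab, ham, ⟨z0, hz0, hz1, hz2⟩, had⟩ := hF a ha
  obtain ⟨ha1, ha2, -⟩ := mem_box hab
  have hne : hv g r a ≠ 0 := by
    have := hz a z0 hz0 hz1
    have : 0 < z0 ^ 2 := by positivity
    omega
  have hdeg : 1 ≤ (hl g r a v).natDegree := by
    by_contra hc
    obtain ⟨hr1, h1⟩ := hl_const H.hr H.adm.deg H.adm.D_ne H.lc H.adm.sep a v (by omega) hne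
      (by omega)
    subst hr1
    obtain ⟨h2, h3⟩ := coeff_small H.hR H.adm.deg H.adm.cont H.lc hs hv1 h1
    have h4 : (hv g 1 a).natAbs ≤ R * s * B + R * s * B := by
      have e1 : hv g 1 a = g.coeff 0 * a.2 + g.coeff 1 * a.1 := by
        simp [hv, Finset.sum_range_succ]
      rw [e1]
      refine (Int.natAbs_add_le _ _).trans ?_
      rw [Int.natAbs_mul, Int.natAbs_mul]
      rw [abs_le] at ha1 ha2
      exact Nat.add_le_add (Nat.mul_le_mul h2 (by omega)) (Nat.mul_le_mul h3 (by omega))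
    have h5 := hz2 _ (Nat.minFac_prime hz1.ne') (Nat.minFac_dvd _)
    have h6 : (z0.minFac : ℝ) ≤ z0 := by exact_mod_cast Nat.minFac_le (by omega)
    have h7 : ((B : ℝ) ^ (2 - η)) ^ 2 ≤ (z0 : ℝ) ^ 2 := by
      gcongr
      linarith
    have h8 : (B : ℝ) ^ (3 : ℕ) ≤ ((B : ℝ) ^ (2 - η)) ^ 2 := by
      rw [← Real.rpow_natCast, ← Real.rpow_natCast, ← Real.rpow_mul (by linarith)]
      exact Real.rpow_le_rpow_of_exponent_le hB (by push_cast; linarith [H.h1])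
    have h9 : B ^ 3 ≤ z0 ^ 2 := by exact_mod_cast h8.trans h7
    have h10 := hz a z0 hz0 hz1
    have h11 : R * s * B + R * s * B ≤ (2 * R) * (B * B) := by nlinarith [Nat.mul_le_mul_left (R * B) hsB']
    have h12 : (2 * R) * (B * B) < B * (B * B) :=
      Nat.mul_lt_mul_of_pos_right H.hB2 (by have := H.hB2; apply Nat.mul_pos <;> omega)
    have h13 : B * (B * B) = B ^ 3 := by ring
    omega
  set L := 2 * B / s with hL
  let S : Finset ℤ := (Finset.Icc (-(L : ℤ)) L).filter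
    fun y => (a.1 + y * v.1, a.2 + y * v.2) ∈ F
  have hsub : F ⊆ S.image fun y => (a.1 + y * v.1, a.2 + y * v.2) := by
    intro t ht
    obtain ⟨htb, htm, -, htd⟩ := hF t ht
    obtain ⟨ht1, ht2, -⟩ := mem_box htb
    obtain ⟨y, hy1, hy2⟩ := hv2 (t.1 - a.1, t.2 - a.2)
      (Eq.mp (congrArg _ (by ring)) (htm.sub ham))
      (by unfold dt at htd had ⊢; linear_combination htd - had)
    have hy : (a.1 + y * v.1, a.2 + y * v.2) = t :=
      Prod.ext (by linear_combination -hy1) (by linear_combination -hy2)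
    refine Finset.mem_image.2 ⟨y, Finset.mem_filter.2 ⟨?_, hy ▸ ht⟩, hy⟩
    have h1 : y.natAbs ≤ L := by
      rw [hL, Nat.le_div_iff_mul_le hs]
      have e1 := congrArg Int.natAbs hy1
      have e2 := congrArg Int.natAbs hy2
      simp only [Int.natAbs_mul] at e1 e2
      rw [abs_le] at ha1 ha2 ht1 ht2
      rcases max_choice v.1.natAbs v.2.natAbs with h | h <;> rw [← hv1, h] <;> omega
    rw [Finset.mem_Icc]
    omega
  refine le_trans (Nat.cast_le.2 ((Finset.card_le_card hsub).trans Finset.card_image_le)) ?_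
  refine H.line (hl g r a v) e k L hk (hl_deg _ _ _ _) hdeg
    (hl_sep H.adm.deg H.adm.D_ne H.lc H.adm.sep a v (had ▸ hκ)) he0 ?_ ?_ (Nat.div_le_self _ _) S
    fun y hy => ?_
  · have := Real.rpow_le_rpow_of_exponent_le hB
      (show 2 - η ≤ ((c + r + 1 : ℕ) : ℝ) by
        have : (1 : ℝ) ≤ r := by exact_mod_cast hBr
        push_cast
        linarith [H.h0, Nat.cast_nonneg (α := ℝ) c])
    rw [Real.rpow_natCast] at this
    exact_mod_cast he.trans this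
  · have h1 : 2 * B < s * (L + 1) := Nat.lt_mul_div_succ _ hs
    have h2 : (2 : ℝ) * B < s * (L + 1) := by exact_mod_cast h1
    have h3 : (B : ℝ) ^ (1 - η / 2) * (B : ℝ) ^ (η / 2) = B := by
      rw [← Real.rpow_add (by linarith)]
      simp
    have h4 : (1 : ℝ) ≤ (B : ℝ) ^ (η / 2) := Real.one_le_rpow hB (by linarith [H.h0])
    have h5 : (0 : ℝ) < (B : ℝ) ^ (1 - η / 2) := by positivity
    have h6 : (s : ℝ) * (L + 1) ≤ (B : ℝ) ^ (1 - η / 2) * (L + 1) := by gcongr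
    have h7 : 2 * (B : ℝ) ^ (η / 2) < L + 1 := lt_of_mul_lt_mul_left (by nlinarith) h5.le
    linarith
  · obtain ⟨hy1, hy2⟩ := Finset.mem_filter.1 hy
    obtain ⟨htb, -, ⟨z, h1, h2, h3⟩, -⟩ := hF _ hy2
    obtain ⟨ht1, ht2, -⟩ := mem_box htb
    refine ⟨abs_le.2 (Finset.mem_Icc.1 hy1), z, (hl_eval _ _ _ _ _).trans h1, ?_, fun p hp hpz => ?_⟩
    · have h4 := hz _ z h1 h2
      have h5 := hv_le (r := r) H.adm.coeff_le H.hB1 ht1 ht2
      rw [← Int.natCast_natAbs] at h5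
      have h6 : z ≤ z ^ 2 := Nat.le_self_pow two_ne_zero _
      exact h6.trans (h4.trans (by exact_mod_cast h5))
    · have := Real.rpow_le_rpow_of_exponent_le hB (show 1 ≤ 2 - η by linarith [H.h1])
      rw [Real.rpow_one] at this
      exact_mod_cast this.trans_lt (h3 p hp hpz)

lemma Ctx.cls (H : Ctx r c R B η g D) {e : ℤ} {k : ℕ} (hk : k = 2 ∨ k = 3) (he0 : e ≠ 0)
    (he : |(e : ℝ)| ≤ (B : ℝ) ^ (2 - η)) {m : ℕ} (hm : 0 < m) (hmB : (m : ℝ) ≤ (B : ℝ) ^ (2 - η))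
    (x : ℤ) (F : Finset (ℤ × ℤ))
    (hF : ∀ t ∈ F, t ∈ box B ∧ (m : ℤ) ∣ t.1 - x * t.2 ∧ Gd g r B η e k t) :
    (F.card : ℝ) ≤ 10 * (B : ℝ) ^ (2 - η / 6) / m := by
  classical
  obtain ⟨v, s, hs, hsm, hv1, hvm, hv2⟩ := exists_short m hm x
  have hB := H.one_le
  have hm' : (0 : ℝ) < m := by exact_mod_cast hm
  have hsB : (s : ℝ) ≤ (B : ℝ) ^ (1 - η / 2) := by
    refine (pow_le_pow_iff_left₀ (by positivity) (by positivity) two_ne_zero).1 ?_
    rw [← Real.rpow_natCast ((B : ℝ) ^ _), ← Real.rpow_mul (by linarith)]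
    have : (s : ℝ) ^ 2 ≤ m := by exact_mod_cast hsm
    refine this.trans (hmB.trans_eq ?_)
    congr 1
    push_cast
    ring
  have h0 : (F.filter fun t => dt v t = 0).card ≤ 2 := by
    refine (Finset.card_le_card (t := {v, -v}) fun t ht => ?_).trans Finset.card_le_two
    obtain ⟨ht, hd⟩ := Finset.mem_filter.1 ht
    obtain ⟨j, h1, h2⟩ := hv2 t (hF t ht).2.1 hd
    have h3 := (mem_box (hF t ht).1).2.2
    rw [h1, h2, Int.gcd_mul_left] at h3
    have h4 := Nat.eq_one_of_mul_eq_one_right h3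
    rw [Finset.mem_insert, Finset.mem_singleton]
    rcases Int.natAbs_eq_iff.1 h4 with h | h
    · exact Or.inl (Prod.ext (by simp [h1, h]) (by simp [h2, h]))
    · exact Or.inr (Prod.ext (by simp [h1, h]) (by simp [h2, h]))
  set J := 2 * s * B / m with hJ
  have hdvd : ∀ t ∈ F, (m : ℤ) ∣ dt v t := fun t ht =>
    Eq.mp (congrArg _ (by unfold dt; ring))
      ((hvm.mul_right t.2).sub ((hF t ht).2.1.mul_right v.2))
  have h1 : ((F.filter fun t => ¬ dt v t = 0).card : ℝ) ≤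
      (2 * J : ℕ) * ((2 * B / s : ℕ) : ℝ) ^ ((2 : ℝ) / 3) := by
    rw [Finset.card_eq_sum_card_fiberwise (f := fun t => dt v t / m)
      (t := (Finset.Icc (-(J : ℤ)) J).erase 0)]
    · push_cast
      refine (Finset.sum_le_card_nsmul _ _ _ fun i hi => H.fibre hk he0 he hs hsB hv1 hv2
        (κ := m * i) (mul_ne_zero (by omega) (Finset.ne_of_mem_erase hi)) _
        fun t ht => ?_).trans_eq ?_
      · obtain ⟨ht, hi⟩ := Finset.mem_filter.1 ht
        obtain ⟨ht, -⟩ := Finset.mem_filter.1 ht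
        refine ⟨(hF t ht).1, (hF t ht).2.1, (hF t ht).2.2, ?_⟩
        rw [← hi, Int.mul_ediv_cancel' (hdvd t ht)]
      · rw [Finset.card_erase_of_mem (by simp), Int.card_Icc, nsmul_eq_mul]
        congr 1
        rw [show ((J : ℤ) + 1 - -(J : ℤ)).toNat - 1 = 2 * J by omega]
        push_cast
        rfl
    · intro t ht
      obtain ⟨ht, hd⟩ := Finset.mem_filter.1 ht
      obtain ⟨i, hi⟩ := hdvd t ht
      obtain ⟨ht1, ht2, -⟩ := mem_box (hF t ht).1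
      have h2 : i.natAbs ≤ J := by
        rw [hJ, Nat.le_div_iff_mul_le hm]
        have e1 := congrArg Int.natAbs hi
        rw [Int.natAbs_mul, Int.natAbs_natCast, dt] at e1
        have e2 := Int.natAbs_sub_le (v.1 * t.2) (v.2 * t.1)
        rw [Int.natAbs_mul, Int.natAbs_mul] at e2
        rw [abs_le] at ht1 ht2
        have e3 := Nat.mul_le_mul (show v.1.natAbs ≤ s by omega) (show t.2.natAbs ≤ B by omega)
        have e4 := Nat.mul_le_mul (show v.2.natAbs ≤ s by omega) (show t.1.natAbs ≤ B by omega)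
        rw [mul_comm, ← e1, mul_assoc]
        omega
      have h3 : i ≠ 0 := fun h => hd (by rw [hi, h, mul_zero])
      simp only [hi, Int.mul_ediv_cancel_left _ (show (m : ℤ) ≠ 0 by omega), Finset.coe_erase,
        Finset.coe_Icc, Set.mem_sdiff, Set.mem_Icc, Set.mem_singleton_iff]
      omega
  have h2 := Finset.card_filter_add_card_filter_not (s := F) fun t => dt v t = 0
  have h3 : (F.card : ℝ) ≤ 2 + (2 * J : ℕ) * ((2 * B / s : ℕ) : ℝ) ^ ((2 : ℝ) / 3) := by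
    rw [← h2]
    push_cast at h1 ⊢
    have : ((F.filter fun t => dt v t = 0).card : ℝ) ≤ 2 := by exact_mod_cast h0
    linarith
  have h4 : (J : ℝ) * m ≤ 2 * s * B := by exact_mod_cast Nat.div_mul_le_self (2 * s * B) m
  have h5 : (s : ℝ) * ((2 * B / s : ℕ) : ℝ) ^ ((2 : ℝ) / 3) ≤ 2 * (B : ℝ) ^ (1 - η / 6) := by
    have e1 : (s : ℝ) = (s : ℝ) ^ ((1 : ℝ) / 3) * (s : ℝ) ^ ((2 : ℝ) / 3) := by
      rw [← Real.rpow_add (by exact_mod_cast hs)]
      norm_num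
    have e2 : (s : ℝ) * ((2 * B / s : ℕ) : ℝ) ≤ 2 * B := by
      exact_mod_cast Nat.mul_div_le (2 * B) s
    have e3 : (2 : ℝ) ^ ((2 : ℝ) / 3) ≤ 2 := by
      simpa using Real.rpow_le_rpow_of_exponent_le (x := 2) (by norm_num)
        (show (2 : ℝ) / 3 ≤ 1 by norm_num)
    calc _ = (s : ℝ) ^ ((1 : ℝ) / 3) * ((s : ℝ) * ((2 * B / s : ℕ) : ℝ)) ^ ((2 : ℝ) / 3) := by
          rw [Real.mul_rpow (by positivity) (by positivity), ← mul_assoc, ← e1]
      _ ≤ ((B : ℝ) ^ (1 - η / 2)) ^ ((1 : ℝ) / 3) * (2 * (B : ℝ)) ^ ((2 : ℝ) / 3) := by gcongr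
      _ = (2 : ℝ) ^ ((2 : ℝ) / 3) * (B : ℝ) ^ (1 - η / 6) := by
          rw [Real.mul_rpow (by positivity) (by positivity), ← Real.rpow_mul (by positivity),
            mul_left_comm, ← Real.rpow_add (by positivity)]
          congr 2
          ring
      _ ≤ _ := by gcongr
  have h6 : (B : ℝ) * (B : ℝ) ^ (1 - η / 6) = (B : ℝ) ^ (2 - η / 6) := by
    rw [show 2 - η / 6 = 1 + (1 - η / 6) by ring, Real.rpow_add (by positivity), Real.rpow_one]
  have h7 := hmB.trans (Real.rpow_le_rpow_of_exponent_le hB (show 2 - η ≤ 2 - η / 6 by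
    linarith [H.h0]))
  rw [le_div_iff₀ hm']
  have hY : 0 ≤ ((2 * B / s : ℕ) : ℝ) ^ ((2 : ℝ) / 3) := by positivity
  generalize ((2 * B / s : ℕ) : ℝ) ^ ((2 : ℝ) / 3) = Y at h3 h5 hY
  push_cast at h3
  have h8 := mul_le_mul_of_nonneg_right h3 hm'.le
  have h9 := mul_le_mul_of_nonneg_right h4 hY
  have h10 := mul_le_mul_of_nonneg_left h5 (zero_le_one.trans hB)
  nlinarith

open Classical in
lemma Ctx.lev (H : Ctx r c R B η g D) (hC : ClassStmt) {e : ℤ} {k : ℕ} (hk : k = 2 ∨ k = 3)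
    (he0 : e ≠ 0) (he : |(e : ℝ)| ≤ (B : ℝ) ^ (2 - η)) {m : ℕ} (hme : (m : ℤ) ∣ e)
    (hmD : IsCoprime (m : ℤ) D) :
    (((box B).filter (Gd g r B η e k)).card : ℝ) ≤
      (r : ℝ) ^ m.primeFactors.card * (10 * (B : ℝ) ^ (2 - η / 6) / m) := by
  have hm : 0 < m := Nat.pos_of_ne_zero fun h => he0 (by simpa [h] using hme)
  have hmB : (m : ℝ) ≤ (B : ℝ) ^ (2 - η) := by
    refine le_trans ?_ he
    exact_mod_cast Int.le_of_dvd (abs_pos.2 he0) ((dvd_abs _ _).2 hme)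
  obtain ⟨Xs, hX, hX'⟩ := hC r g D m hm H.adm.deg H.adm.lc_dvd H.adm.sep hmD
  have hsub : (box B).filter (Gd g r B η e k) ⊆ Xs.biUnion fun x =>
      (box B).filter fun t => (m : ℤ) ∣ t.1 - x * t.2 ∧ Gd g r B η e k t := by
    intro t ht
    obtain ⟨ht, z, hz⟩ := Finset.mem_filter.1 ht
    obtain ⟨x, hx, hx'⟩ := hX' t (mem_box ht).2.2 (hz.1 ▸ hme.mul_right _)
    exact Finset.mem_biUnion.2 ⟨x, hx, Finset.mem_filter.2 ⟨ht, hx', z, hz⟩⟩
  refine le_trans (Nat.cast_le.2 ((Finset.card_le_card hsub).trans Finset.card_biUnion_le)) ?_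
  push_cast
  refine (Finset.sum_le_card_nsmul _ _ _ fun x _ =>
    H.cls hk he0 he hm hmB x _ fun t ht => Finset.mem_filter.1 ht).trans ?_
  rw [nsmul_eq_mul]
  gcongr
  exact_mod_cast hX

lemma harm_le {B : ℕ} (hB : (1 : ℝ) ≤ B) {θ : ℝ} (hθ : 0 < θ) :
    ∑ m ∈ Finset.Icc 1 (B ^ 2), (m : ℝ)⁻¹ ≤ (1 + 2 / θ) * (B : ℝ) ^ θ := by
  have h1 := harmonic_le_one_add_log (B ^ 2)
  rw [harmonic_eq_sum_Icc] at h1
  push_cast at h1
  rw [Real.log_pow] at h1
  have h2 := Real.log_le_rpow_div (zero_le_one.trans hB) hθ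
  have h3 := Real.one_le_rpow hB hθ.le
  push_cast at h1
  have h4 : (1 + 2 / θ) * (B : ℝ) ^ θ = (B : ℝ) ^ θ + 2 * ((B : ℝ) ^ θ / θ) := by ring
  linarith

theorem fewC : OmegaStmt → SmoothStmt → ClassStmt → LineStmt → Few PC := by
  classical
  intro hO hS hC hL r c R η hr hR h0 h1
  set θ : ℝ := η / (24 * (c + 5)) with hθ
  have hθ0 : 0 < θ := by positivity
  obtain ⟨K1, hK1, hO⟩ := hO r θ (by positivity) hθ0
  obtain ⟨K2, hK2, hS⟩ := hS θ hθ0
  obtain ⟨B1, hL⟩ := hL r (c + r + 1) (η / 2) (by positivity)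
  obtain ⟨B2, hB2⟩ := Filter.eventually_atTop.1
    (((tendsto_rpow_atTop (show 0 < η / 24 by positivity)).comp
      tendsto_natCast_atTop_atTop).eventually_ge_atTop (40 * K1 * K2 * (1 + 2 / θ)))
  refine ⟨η / 12, by positivity, B1 + B2 + (r + 1) + (2 * R + 1), fun B hB g D hA => ?_⟩
  have H : Ctx r c R B η g D := ⟨hA, hr, hR, by omega, by omega, h0, h1, hL B (by omega)⟩
  have hB1 := H.one_le
  have hE : (B : ℝ) ^ (2 - η) ≤ ((B ^ 2 : ℕ) : ℝ) := by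
    have := Real.rpow_le_rpow_of_exponent_le hB1 (show 2 - η ≤ ((2 : ℕ) : ℝ) by
      push_cast
      linarith)
    rw [Real.rpow_natCast] at this
    exact_mod_cast this
  set Sm := (Finset.Icc 1 (B ^ 2)).filter (fun m => ∀ p : ℕ, p.Prime → p ∣ m → p ∣ D.natAbs)
  let P : Finset ((ℕ × ℤ × ℕ) × ℕ) :=
    (({2, 3} : Finset ℕ) ×ˢ ({1, -1} : Finset ℤ) ×ˢ Sm) ×ˢ Finset.Icc 1 (B ^ 2)
  let ee : (ℕ × ℤ × ℕ) × ℕ → ℤ := fun i => i.1.2.1 * i.1.2.2 * i.2
  let P' := P.filter fun i => IsCoprime (i.2 : ℤ) D ∧ ee i ≠ 0 ∧ |(ee i : ℝ)| ≤ (B : ℝ) ^ (2 - η)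
  have hsub : (box B).filter (fun t => hv g r t ≠ 0 ∧ PC η B D (hv g r t)) ⊆
      P'.biUnion fun i => (box B).filter (Gd g r B η (ee i) i.1.1) := by
    intro t ht
    obtain ⟨ht, hn, e, z, k, hk, h2, h3, h4, h5⟩ := Finset.mem_filter.1 ht
    have he : e ≠ 0 := fun h => hn (by rw [h2, h, zero_mul])
    obtain ⟨a, m, ham, ha, hm⟩ := split_smooth D.natAbs e.natAbs (Int.natAbs_ne_zero.2 he)
    have h6 : a * m ≤ B ^ 2 := by
      have := h5.trans hE
      rw [← Int.cast_abs, ← Int.natCast_natAbs, ham] at this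
      exact_mod_cast this
    have h7 : 0 < a * m := ham ▸ Int.natAbs_pos.2 he
    have ha0 := Nat.pos_of_mul_pos_right h7
    have hm0 := Nat.pos_of_mul_pos_left h7
    have h8 : e = e.sign * a * m := by
      rw [mul_assoc, ← Nat.cast_mul, ← ham, Int.sign_mul_natAbs]
    refine Finset.mem_biUnion.2 ⟨((k, e.sign, a), m), Finset.mem_filter.2 ⟨?_, ?_, ?_⟩,
      Finset.mem_filter.2 ⟨ht, z, ?_, h3, h4⟩⟩
    · simp only [P, Sm, Finset.mem_product, Finset.mem_insert, Finset.mem_singleton,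
        Finset.mem_filter, Finset.mem_Icc]
      refine ⟨⟨hk, ?_, ⟨ha0, (Nat.le_mul_of_pos_right _ hm0).trans h6⟩, ha⟩, hm0,
        (Nat.le_mul_of_pos_left _ ha0).trans h6⟩
      rcases lt_or_gt_of_ne he with h | h
      · exact Or.inr (Int.sign_eq_neg_one_of_neg h)
      · exact Or.inl (Int.sign_eq_one_of_pos h)
    · exact Int.isCoprime_iff_gcd_eq_one.2 hm
    · simp only [ee, ← h8]
      exact ⟨he, h5⟩
    · simp only [ee, ← h8]
      exact h2
  refine le_trans (Nat.cast_le.2 ((Finset.card_le_card hsub).trans Finset.card_biUnion_le)) ?_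
  push_cast
  set W : ℝ := K1 * (B : ℝ) ^ (2 * θ) * (10 * (B : ℝ) ^ (2 - η / 6)) with hW
  have h2 : ∀ i ∈ P', (((box B).filter (Gd g r B η (ee i) i.1.1)).card : ℝ) ≤ W * (i.2 : ℝ)⁻¹ := by
    intro i hi
    obtain ⟨hi, h3, h4, h5⟩ := Finset.mem_filter.1 hi
    simp only [P, Finset.mem_product, Finset.mem_insert, Finset.mem_singleton,
      Finset.mem_Icc] at hi
    refine (H.lev hC hi.1.1 h4 h5 (dvd_mul_left _ _) h3).trans ?_
    rw [hW, div_eq_mul_inv, ← mul_assoc]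
    gcongr
    refine (hO _ (by omega)).trans ?_
    rw [Real.rpow_mul (by positivity), Real.rpow_two]
    gcongr
    exact_mod_cast hi.2.2
  refine (Finset.sum_le_sum h2).trans ?_
  refine (Finset.sum_le_sum_of_subset_of_nonneg (Finset.filter_subset _ P)
    fun i _ _ => by positivity).trans ?_
  rw [Finset.sum_product]
  simp only [Finset.sum_const, ← Finset.mul_sum, Finset.card_product, nsmul_eq_mul]
  have h3 : (Sm.card : ℝ) ≤ K2 * (B : ℝ) ^ ((c + 2) * θ) := by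
    refine (hS D.natAbs (B ^ 2) (Int.natAbs_ne_zero.2 hA.D_ne)).trans ?_
    rw [Real.rpow_mul (by positivity)]
    gcongr
    have h4 : (D.natAbs : ℝ) ≤ (B : ℝ) ^ c := by
      have := hA.D_le
      rw [← Int.natCast_natAbs] at this
      exact_mod_cast this
    rw [show (c : ℝ) + 2 = ((2 + c : ℕ) : ℝ) by push_cast; ring, Real.rpow_natCast, pow_add]
    push_cast
    gcongr
  have h4 := harm_le hB1 hθ0
  have h5 := hB2 B (by omega)
  simp only [Function.comp] at h5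
  have h6 : (B : ℝ) ^ (2 - η / 12) = (B : ℝ) ^ (η / 24) * ((B : ℝ) ^ ((c + 2) * θ) *
      (B : ℝ) ^ (2 * θ) * (B : ℝ) ^ (2 - η / 6) * (B : ℝ) ^ θ) := by
    simp only [← Real.rpow_add (zero_lt_one.trans_le hB1)]
    congr 1
    rw [hθ]
    field_simp
    ring
  rw [h6, Finset.card_pair (by norm_num), Finset.card_pair (by norm_num)]
  push_cast
  calc _ ≤ 2 * (2 * (K2 * (B : ℝ) ^ ((c + 2) * θ))) * (W * ((1 + 2 / θ) * (B : ℝ) ^ θ)) := by
        gcongr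
    _ = 40 * K1 * K2 * (1 + 2 / θ) * ((B : ℝ) ^ ((c + 2) * θ) *
      (B : ℝ) ^ (2 * θ) * (B : ℝ) ^ (2 - η / 6) * (B : ℝ) ^ θ) := by
        rw [hW]
        ring
    _ ≤ _ := by gcongr

end Pool.Agent.MP_542436_nt.H1
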