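import Pool.Agent.MP_542436_nt.H5.Defs

/-!
Lattices fibred into lines: short vectors and the restriction of a binary form to a line.
-/

namespace Pool.Agent.MP_542436_nt.H1

open Polynomial Pool.Agent.MP_542436_nt.H5

lemma split_smooth (D n : ℕ) (hn : n ≠ 0) : ∃ a m : ℕ, n = a * m ∧
    (∀ p : ℕ, p.Prime → p ∣ a → p ∣ D) ∧ m.Coprime D := by
  induction n using induction_on_primes with
  | zero => exact absurd rfl hn
  | one => exact ⟨1, 1, rfl, fun p hp h => absurd (Nat.dvd_one.1 h) hp.ne_one, by simp⟩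
  | prime_mul p n hp ih =>
    obtain ⟨a, m, rfl, ha, hm⟩ := ih (right_ne_zero_of_mul hn)
    by_cases h : p ∣ D
    · refine ⟨p * a, m, by ring, fun q hq hqa => ?_, hm⟩
      rcases (Nat.Prime.dvd_mul hq).1 hqa with h1 | h1
      · rwa [(Nat.prime_dvd_prime_iff_eq hq hp).1 h1]
      · exact ha q hq h1
    · exact ⟨a, p * m, by ring, ha, Nat.Coprime.mul_left ((Nat.Prime.coprime_iff_not_dvd hp).2 h) hm⟩

lemma exists_small (m : ℕ) (hm : 0 < m) (x : ℤ) : ∃ v : ℤ × ℤ, v ≠ 0 ∧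
    max v.1.natAbs v.2.natAbs ≤ m.sqrt ∧ (m : ℤ) ∣ v.1 - x * v.2 := by
  have : NeZero m := ⟨hm.ne'⟩
  obtain ⟨a, b, hab, h⟩ := Fintype.exists_ne_map_eq_of_card_lt
    (fun a : Fin (m.sqrt + 1) × Fin (m.sqrt + 1) => ((((a.1 : ℕ) : ℤ) - x * (a.2 : ℕ) : ℤ) : ZMod m))
    (by simpa using Nat.lt_succ_sqrt m)
  refine ⟨(((b.1 : ℕ) : ℤ) - (a.1 : ℕ), ((b.2 : ℕ) : ℤ) - (a.2 : ℕ)), fun h0 => hab ?_, ?_, ?_⟩
  · simp only [Prod.mk_eq_zero] at h0
    exact Prod.ext (Fin.ext (by omega)) (Fin.ext (by omega))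
  · have := a.1.2
    have := a.2.2
    have := b.1.2
    have := b.2.2
    simp only [max_le_iff]
    omega
  · have := (ZMod.intCast_eq_intCast_iff_dvd_sub _ _ _).1 h
    refine Eq.mp (congrArg _ ?_) this
    ring

lemma red_aux {v1 v2 w1 w2 : ℤ} (h : v1 * w2 = v2 * w1) (h1 : w1.natAbs < v1.natAbs) :
    max w1.natAbs w2.natAbs < max v1.natAbs v2.natAbs := by
  have h2 : v1.natAbs * w2.natAbs = v2.natAbs * w1.natAbs := by
    rw [← Int.natAbs_mul, h, Int.natAbs_mul]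
  have h3 : w2.natAbs < v2.natAbs ∨ w2.natAbs = 0 := by
    by_contra hc
    push Not at hc
    have h4 := Nat.mul_le_mul_right w1.natAbs hc.1
    have h5 := Nat.mul_lt_mul_of_pos_left h1 (Nat.pos_of_ne_zero hc.2)
    rw [mul_comm] at h2
    omega
  omega

lemma exists_short (m : ℕ) (hm : 0 < m) (x : ℤ) : ∃ (v : ℤ × ℤ) (s : ℕ), 1 ≤ s ∧ s ^ 2 ≤ m ∧
    max v.1.natAbs v.2.natAbs = s ∧ (m : ℤ) ∣ v.1 - x * v.2 ∧
    ∀ u : ℤ × ℤ, (m : ℤ) ∣ u.1 - x * u.2 → dt v u = 0 → ∃ j : ℤ, u.1 = j * v.1 ∧ u.2 = j * v.2 := by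
  classical
  obtain ⟨v0, h0, h1, h2⟩ := exists_small m hm x
  have hex : ∃ s : ℕ, ∃ v : ℤ × ℤ, v ≠ 0 ∧ max v.1.natAbs v.2.natAbs = s ∧
      (m : ℤ) ∣ v.1 - x * v.2 := ⟨_, v0, h0, rfl, h2⟩
  obtain ⟨v, hv0, hv1, hv2⟩ := Nat.find_spec hex
  have hmin : ∀ w : ℤ × ℤ, (m : ℤ) ∣ w.1 - x * w.2 →
      max w.1.natAbs w.2.natAbs < max v.1.natAbs v.2.natAbs → w = 0 := by
    intro w hw hlt
    by_contra hne
    rw [hv1] at hlt
    exact Nat.find_min hex hlt ⟨w, hne, rfl, hw⟩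
  have hle : Nat.find hex ≤ m.sqrt := (Nat.find_min' hex ⟨v0, h0, rfl, h2⟩).trans h1
  have hne : v.1 ≠ 0 ∨ v.2 ≠ 0 := by
    by_contra hc
    push Not at hc
    exact hv0 (Prod.ext hc.1 hc.2)
  refine ⟨v, Nat.find hex, by omega, ?_, hv1, hv2, fun u hu hd => ?_⟩
  · exact (Nat.pow_le_pow_left hle 2).trans (Nat.sqrt_le' m)
  have key : ∀ j : ℤ, max (u.1 - j * v.1).natAbs (u.2 - j * v.2).natAbs <
      max v.1.natAbs v.2.natAbs → u.1 = j * v.1 ∧ u.2 = j * v.2 := by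
    intro j hj
    have := hmin (u.1 - j * v.1, u.2 - j * v.2)
      (Eq.mp (congrArg _ (by ring)) (hu.sub (hv2.mul_left j))) hj
    simp only [Prod.mk_eq_zero] at this
    omega
  unfold dt at hd
  rcases hne with h | h
  · refine ⟨u.1 / v.1, key _ (red_aux (by linear_combination hd) ?_)⟩
    have e1 : u.1 - u.1 / v.1 * v.1 = u.1 % v.1 := by rw [Int.emod_def]; ring
    have := Int.emod_nonneg u.1 h
    have := Int.emod_lt_abs u.1 h
    rw [e1]
    zify
    rwa [abs_of_nonneg (by assumption)]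
  · refine ⟨u.2 / v.2, key _ ?_⟩
    rw [max_comm, max_comm v.1.natAbs]
    refine red_aux (by linear_combination -hd) ?_
    have e1 : u.2 - u.2 / v.2 * v.2 = u.2 % v.2 := by rw [Int.emod_def]; ring
    have := Int.emod_nonneg u.2 h
    have := Int.emod_lt_abs u.2 h
    rw [e1]
    zify
    rwa [abs_of_nonneg (by assumption)]

/-- The form restricted to the line `a + y v`. -/
noncomputable def hl (g : ℤ[X]) (r : ℕ) (a v : ℤ × ℤ) : ℤ[X] :=
  ∑ k ∈ Finset.range (r + 1),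
    C (g.coeff k) * (C a.1 + X * C v.1) ^ k * (C a.2 + X * C v.2) ^ (r - k)

lemma hl_eval (g : ℤ[X]) (r : ℕ) (a v : ℤ × ℤ) (y : ℤ) :
    (hl g r a v).eval y = hv g r (a.1 + y * v.1, a.2 + y * v.2) := by
  simp [hl, hv, eval_finsetSum]

lemma hl_deg (g : ℤ[X]) (r : ℕ) (a v : ℤ × ℤ) : (hl g r a v).natDegree ≤ r := by
  refine natDegree_sum_le_of_forall_le _ _ fun k hk => ?_
  have hk' : k ≤ r := Nat.lt_succ_iff.1 (Finset.mem_range.1 hk)
  have h1 : ∀ b c : ℤ, (C b + X * C c).natDegree ≤ 1 := fun b c => by compute_degree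
  refine natDegree_mul_le.trans ?_
  have h2 := (natDegree_C_mul_le (g.coeff k) _).trans (natDegree_pow_le_of_le k (h1 a.1 v.1))
  have h3 := natDegree_pow_le_of_le (r - k) (h1 a.2 v.2)
  omega

lemma hl_aeval {g : ℤ[X]} {r : ℕ} (hg : g.natDegree ≤ r) (a v : ℤ × ℤ) (y w : ℂ)
    (h : a.1 + y * v.1 = w * (a.2 + y * v.2)) :
    aeval y (hl g r a v) = (a.2 + y * v.2) ^ r * aeval w g := by
  rw [aeval_eq_sum_range' (Nat.lt_succ_of_le hg), Finset.mul_sum, hl, map_sum]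
  refine Finset.sum_congr rfl fun k hk => ?_
  obtain ⟨j, rfl⟩ := Nat.exists_eq_add_of_le (Nat.lt_succ_iff.1 (Finset.mem_range.1 hk))
  simp only [map_mul, map_pow, map_add, aeval_X, eq_intCast, h, Nat.add_sub_cancel_left,
    zsmul_eq_mul, map_intCast, mul_pow]
  ring

lemma hl_der {g : ℤ[X]} {r : ℕ} (hg : g.natDegree ≤ r) (a v : ℤ × ℤ) (y w : ℂ)
    (h : a.1 + y * v.1 = w * (a.2 + y * v.2)) :
    (a.2 + y * v.2) ^ 2 * aeval y (derivative (hl g r a v)) = (a.2 + y * v.2) ^ r *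
      (r * v.2 * (a.2 + y * v.2) * aeval w g + (dt v a : ℤ) * aeval w (derivative g)) := by
  have hd : ((dt v a : ℤ) : ℂ) = (v.1 - w * v.2) * (a.2 + y * v.2) := by
    simp only [dt]
    push_cast
    linear_combination (-v.2 : ℂ) * h
  conv_rhs => rw [g.as_sum_range_C_mul_X_pow' (Nat.lt_succ_of_le hg)]
  simp only [hl, map_sum, Finset.mul_sum, ← Finset.sum_add_distrib, hd]
  refine Finset.sum_congr rfl fun k hk => ?_
  obtain ⟨j, rfl⟩ := Nat.exists_eq_add_of_le (Nat.lt_succ_iff.1 (Finset.mem_range.1 hk))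
  simp only [derivative_mul, derivative_pow, derivative_X, map_mul,
    map_pow, map_add, aeval_X, eq_intCast, h, Nat.add_sub_cancel_left, map_intCast,
    map_natCast, map_zero, map_one, derivative_intCast]
  generalize (a.2 + y * v.2 : ℂ) = q
  rcases k with _ | k <;> rcases j with _ | j <;> simp <;> ring

lemma no_double {g : ℤ[X]} {D : ℤ} (hD : D ≠ 0) (hs : ∃ U V : ℤ[X], U * g + V * derivative g = C D)
    (w : ℂ) (h1 : aeval w g = 0) (h2 : aeval w (derivative g) = 0) : False := by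
  obtain ⟨U, V, h⟩ := hs
  have := congrArg (aeval w) h
  simp only [map_add, map_mul, h1, h2, mul_zero, add_zero, eq_intCast, map_intCast] at this
  exact hD (by exact_mod_cast this.symm)

lemma sep_of {f : ℤ[X]} (h : ∀ y : ℂ, aeval y f = 0 → aeval y (derivative f) = 0 → False) :
    (f.map (Int.castRingHom ℚ)).Separable := by
  refine (isCoprime_iff_aeval_ne_zero_of_isAlgClosed ℚ ℂ _ _).2 fun y => ?_
  rw [derivative_map]
  have e : Int.castRingHom ℚ = algebraMap ℤ ℚ := rfl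
  rw [e, aeval_map_algebraMap, aeval_map_algebraMap]
  by_contra hc
  push Not at hc
  exact h y hc.1 hc.2

lemma hl_sep {g : ℤ[X]} {r : ℕ} {D : ℤ} (hg : g.natDegree ≤ r) (hD : D ≠ 0) (hc : g.coeff r ≠ 0)
    (hs : ∃ U V : ℤ[X], U * g + V * derivative g = C D) (a v : ℤ × ℤ) (hd : dt v a ≠ 0) :
    ((hl g r a v).map (Int.castRingHom ℚ)).Separable := by
  refine sep_of fun y h1 h2 => ?_
  have hd' : ((dt v a : ℤ) : ℂ) ≠ 0 := by exact_mod_cast hd
  by_cases hq : (a.2 + y * v.2 : ℂ) = 0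
  · rw [hl, map_sum, Finset.sum_eq_single r] at h1
    · simp only [map_mul, map_pow, map_add, aeval_X, eq_intCast, map_intCast,
        Nat.sub_self, pow_zero, mul_one, mul_eq_zero, Int.cast_eq_zero, hc, false_or] at h1
      apply hd'
      simp only [dt]
      push_cast
      linear_combination (v.1 : ℂ) * hq - (v.2 : ℂ) * (pow_eq_zero_iff'.1 h1).1
    · intro k hk hne
      have : r - k ≠ 0 := by
        have := Finset.mem_range.1 hk
        omega
      simp [hq, this]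
    · simp
  · have h : a.1 + y * v.1 = ((a.1 + y * v.1) / (a.2 + y * v.2) : ℂ) * (a.2 + y * v.2) := by
      field_simp
    have h3 := hl_aeval hg a v y _ h
    have h4 := hl_der hg a v y _ h
    rw [h1] at h3
    have h5 := (mul_eq_zero.1 h3.symm).resolve_left (pow_ne_zero _ hq)
    rw [h2, h5, mul_zero, mul_zero, zero_add] at h4
    exact no_double hD hs _ h5
      ((mul_eq_zero.1 ((mul_eq_zero.1 h4.symm).resolve_left (pow_ne_zero _ hq))).resolve_left hd')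

lemma hl_const {g : ℤ[X]} {r : ℕ} {D : ℤ} (hr : 1 ≤ r) (hg : g.natDegree ≤ r) (hD : D ≠ 0)
    (hc : g.coeff r ≠ 0) (hs : ∃ U V : ℤ[X], U * g + V * derivative g = C D) (a v : ℤ × ℤ)
    (hv0 : v.1 ≠ 0 ∨ v.2 ≠ 0) (hn : hv g r a ≠ 0) (h0 : (hl g r a v).natDegree = 0) :
    r = 1 ∧ g.coeff 0 * v.2 + g.coeff 1 * v.1 = 0 := by
  have h1 := eq_C_of_natDegree_eq_zero h0
  have h2 : ∀ y : ℤ, (hl g r a v).coeff 0 = hv g r (a.1 + y * v.1, a.2 + y * v.2) := fun y => by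
    rw [← hl_eval, h1]
    simp
  have h3 : (hl g r a v).coeff 0 = hv g r a := by simpa using h2 0
  have hr1 : r = 1 := by
    by_contra hne
    have hsep : (g.map (Int.castRingHom ℚ)).Separable := sep_of (no_double hD hs)
    have h4 := card_rootSet_eq_natDegree (K := ℂ) hsep (IsAlgClosed.splits _)
    rw [natDegree_map_eq_of_injective (RingHom.injective_int _),
      natDegree_eq_of_le_of_coeff_ne_zero hg hc] at h4
    have h5 : ∀ w : (g.map (Int.castRingHom ℚ)).rootSet ℂ, (w : ℂ) * v.2 = v.1 := by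
      intro w
      by_contra hw
      have hw' : (v.1 - (w : ℂ) * v.2) ≠ 0 := fun h => hw (by linear_combination -h)
      have h6 := hl_aeval hg a v (((w : ℂ) * a.2 - a.1) / (v.1 - (w : ℂ) * v.2)) w
        (by field_simp; ring)
      have h7 : aeval (w : ℂ) g = 0 :=
        (aeval_map_algebraMap ℚ (w : ℂ) g).symm.trans (aeval_eq_zero_of_mem_rootSet w.2)
      rw [h1, h3, aeval_C, h7] at h6
      exact hn (by simpa using h6)
    obtain ⟨w, w', hww⟩ := Fintype.exists_pair_of_one_lt_card (h4 ▸ (by omega : 1 < r))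
    have h6 : (v.2 : ℂ) ≠ 0 := by
      intro h
      have h7 := h5 w
      rw [h, mul_zero] at h7
      rcases hv0 with h8 | h8
      · exact h8 (by exact_mod_cast h7.symm)
      · exact h8 (by exact_mod_cast h)
    exact hww (Subtype.ext (mul_right_cancel₀ h6 ((h5 w).trans (h5 w').symm)))
  subst hr1
  refine ⟨rfl, ?_⟩
  have h4 := h2 1
  rw [h3] at h4
  simp [hv, Finset.sum_range_succ] at h4
  linear_combination -h4

lemma coeff_small {g : ℤ[X]} {R s : ℕ} (hR : 1 ≤ R) (hg : g.natDegree ≤ 1)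
    (hc : ∀ κ : ℤ, (∀ k, κ ∣ g.coeff k) → κ ∣ (R : ℤ)) (hc1 : g.coeff 1 ≠ 0) {v : ℤ × ℤ}
    (hs : 1 ≤ s) (hv : max v.1.natAbs v.2.natAbs = s)
    (h : g.coeff 0 * v.2 + g.coeff 1 * v.1 = 0) :
    (g.coeff 0).natAbs ≤ R * s ∧ (g.coeff 1).natAbs ≤ R * s := by
  have hpos : 0 < Int.gcd (g.coeff 0) (g.coeff 1) := Int.gcd_pos_of_ne_zero_right _ hc1
  obtain ⟨a, b, hab, ha, hb⟩ := Int.exists_gcd_one hpos
  have hd : (Int.gcd (g.coeff 0) (g.coeff 1) : ℤ) ∣ R := hc _ fun k => by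
    rcases k with _ | _ | k
    · exact Int.gcd_dvd_left _ _
    · exact Int.gcd_dvd_right _ _
    · rw [coeff_eq_zero_of_natDegree_lt (p := g) (n := k + 1 + 1) (by omega)]
      exact dvd_zero _
  generalize Int.gcd (g.coeff 0) (g.coeff 1) = d at hpos ha hb hd
  have hdR : d ≤ R := Nat.le_of_dvd hR (by exact_mod_cast hd)
  have h1 : a * v.2 + b * v.1 = 0 := by
    have : (d : ℤ) ≠ 0 := by exact_mod_cast hpos.ne'
    apply mul_left_cancel₀ this
    rw [ha, hb] at h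
    linear_combination h
  have hco := Int.isCoprime_iff_gcd_eq_one.2 hab
  have h2 : a ∣ v.1 := hco.dvd_of_dvd_mul_left ⟨-v.2, by linear_combination h1⟩
  have h3 : b ∣ v.2 := hco.symm.dvd_of_dvd_mul_left ⟨-v.1, by linear_combination h1⟩
  have h4 : a.natAbs ≤ s := by
    by_cases h0 : v.1 = 0
    · have : v.2 ≠ 0 := by omega
      rw [h0, mul_zero, add_zero] at h1
      rw [(mul_eq_zero.1 h1).resolve_right this]
      simp
    · have := Int.natAbs_le_of_dvd_ne_zero h2 h0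
      omega
  have h5 : b.natAbs ≤ s := by
    by_cases h0 : v.2 = 0
    · have : v.1 ≠ 0 := by omega
      rw [h0, mul_zero, zero_add] at h1
      rw [(mul_eq_zero.1 h1).resolve_right this]
      simp
    · have := Int.natAbs_le_of_dvd_ne_zero h3 h0
      omega
  rw [ha, hb, Int.natAbs_mul, Int.natAbs_mul, Int.natAbs_natCast, mul_comm R]
  exact ⟨Nat.mul_le_mul h4 hdR, Nat.mul_le_mul h5 hdR⟩

lemma hv_le {g : ℤ[X]} {r c B : ℕ} (hc : ∀ k, |g.coeff k| ≤ (B : ℤ) ^ c) (hB : r + 1 ≤ B)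
    {t : ℤ × ℤ} (h1 : |t.1| ≤ B) (h2 : |t.2| ≤ B) : |hv g r t| ≤ (B : ℤ) ^ (c + r + 1) := by
  refine (Finset.abs_sum_le_sum_abs _ _).trans ?_
  refine (Finset.sum_le_card_nsmul _ _ ((B : ℤ) ^ (c + r)) fun k hk => ?_).trans ?_
  · obtain ⟨j, rfl⟩ := Nat.exists_eq_add_of_le (Nat.lt_succ_iff.1 (Finset.mem_range.1 hk))
    rw [abs_mul, abs_mul, abs_pow, abs_pow, Nat.add_sub_cancel_left, pow_add, pow_add,
      ← mul_assoc]
    have := hc k
    gcongr
  · rw [Finset.card_range, nsmul_eq_mul, pow_succ, mul_comm]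
    gcongr

end Pool.Agent.MP_542436_nt.H1
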